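import Pool.Agent.Lib.MP_e1fd79_gt.Interfaces

/-!
# Module INT: the integral of `1 / (t + d)` over a tube
-/

set_option autoImplicit false

open scoped ContDiff Topology
open MeasureTheory Filter

namespace Pool.Agent.Lib.MP_e1fd79_gt.H35

variable {m : ℕ}

/-- half sides of the boxes -/
noncomputable def rr (m : ℕ) (a Y ε : ℝ) (i : Fin (m + 3)) : ℝ :=
  if i.val < 2 then a else if i.val = 2 then Y else ε

lemma rr_two (m : ℕ) (a Y ε : ℝ) : rr m a Y ε 2 = Y := by
  have e : ((2 : Fin (m + 3)) : ℕ) = 2 := rfl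
  unfold rr
  rw [e, if_neg (lt_irrefl 2), if_pos rfl]

lemma vol_box (m : ℕ) (a Y ε : ℝ) (ha : 0 ≤ a) (hY : 0 ≤ Y) (hε : 0 ≤ ε) :
    volume.real (Set.Icc (-(rr m a Y ε)) (rr m a Y ε)) = 4 * a ^ 2 * (2 * Y) * (2 * ε) ^ m := by
  have h0 : (-(rr m a Y ε)) ≤ rr m a Y ε := by
    intro i
    have : 0 ≤ rr m a Y ε i := by
      unfold rr
      split_ifs <;> assumption
    simp only [Pi.neg_apply]
    linarith
  unfold Measure.real
  rw [Real.volume_Icc_pi_toReal h0, Fin.prod_univ_succ, Fin.prod_univ_succ, Fin.prod_univ_succ]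
  have h1 : ∀ i : Fin m, rr m a Y ε i.succ.succ.succ - (-(rr m a Y ε)) i.succ.succ.succ =
      2 * ε := by
    intro i
    have h2 : rr m a Y ε i.succ.succ.succ = ε := by
      unfold rr
      rw [if_neg (by simp), if_neg (by simp)]
    rw [Pi.neg_apply, h2]; ring
  rw [Finset.prod_congr rfl fun i _ => h1 i]
  have e0 : rr m a Y ε 0 = a := by simp [rr]
  have e1 : rr m a Y ε (Fin.succ 0) = a := by simp [rr]
  have e2 : rr m a Y ε (Fin.succ 0).succ = Y := rr_two m a Y ε
  rw [Pi.neg_apply, Pi.neg_apply, Pi.neg_apply, e0, e1, e2, Finset.prod_const, Finset.card_univ,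
    Fintype.card_fin]
  ring

lemma geom4 (k : ℕ) : (∑ j ∈ Finset.range k, (4 : ℝ) ^ j) = (4 ^ k - 1) / 3 := by
  rw [geom_sum_eq (by norm_num)]
  norm_num

/-- The dyadic sum. -/
lemma dyadic (k : ℕ) (t0 d s : ℝ) (ht : 0 < t0) (hd : 0 < d) (hs : 0 ≤ s)
    (hk : 4 ^ k * d ≤ t0 / 2) :
    ∑ j ∈ Finset.range k, (if 4 ^ j * s ≤ t0 then (4 : ℝ) ^ j else 0) ≤ 2 * t0 / (s + d) := by
  induction k with
  | zero => simp; positivity
  | succ k ih =>
    rw [Finset.sum_range_succ]
    by_cases h : 4 ^ k * s ≤ t0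
    · rw [if_pos h, le_div_iff₀ (by positivity)]
      have h1 : ∑ j ∈ Finset.range k, (if 4 ^ j * s ≤ t0 then (4 : ℝ) ^ j else 0) ≤
          (4 ^ k - 1) / 3 := by
        rw [← geom4]
        refine Finset.sum_le_sum fun j _ => ?_
        split_ifs
        · exact le_rfl
        · positivity
      have h2 : (4 : ℝ) ^ (k + 1) = 4 * 4 ^ k := by ring
      rw [h2] at hk
      have h3 : (0 : ℝ) < 4 ^ k := by positivity
      calc (∑ j ∈ Finset.range k, (if 4 ^ j * s ≤ t0 then (4 : ℝ) ^ j else 0) + 4 ^ k) * (s + d)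
          ≤ ((4 ^ k - 1) / 3 + 4 ^ k) * (s + d) := by gcongr
        _ ≤ (4 / 3 * 4 ^ k) * (s + d) := by
          gcongr
          linarith
        _ = 4 / 3 * (4 ^ k * s) + 4 / 3 * (4 ^ k * d) := by ring
        _ ≤ 2 * t0 := by nlinarith
    · rw [if_neg h, add_zero]
      apply ih
      have h2 : (4 : ℝ) ^ (k + 1) = 4 * 4 ^ k := by ring
      rw [h2] at hk
      have h3 : (0 : ℝ) < 4 ^ k * d := by positivity
      linarith

/-- Module INT. -/
theorem int_holds : IntStatement := by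
  intro m k t0 d Y ε ht hd hY hε hk
  set A : Set (Fin (m + 3) → ℝ) :=
    {x | tt x ≤ t0 ∧ |x 2| ≤ Y ∧ ∀ i, 3 ≤ i.val → |x i| ≤ ε} with hA
  set a : ℕ → ℝ := fun j => √(t0 / 2) / 2 ^ j with ha
  have ha0 : ∀ j, 0 ≤ a j := fun j => by simp only [ha]; positivity
  have ha2 : ∀ j, a j ^ 2 = t0 / 2 / 4 ^ j := by
    intro j
    simp only [ha]
    rw [div_pow, Real.sq_sqrt (by positivity), ← pow_mul, mul_comm j 2, pow_mul]
    norm_num
  set B : ℕ → Set (Fin (m + 3) → ℝ) := fun j =>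
    Set.Icc (-(rr m (a j) Y ε)) (rr m (a j) Y ε) with hB
  have hBmeas : ∀ j, MeasurableSet (B j) := fun j => measurableSet_Icc
  -- membership in the boxes
  have hBmem : ∀ j x, x ∈ B j → (|x 0| ≤ a j ∧ |x 1| ≤ a j) ∧ |x 2| ≤ Y ∧
      ∀ i : Fin (m + 3), 3 ≤ i.val → |x i| ≤ ε := by
    intro j x hx
    have h1 : ∀ i, |x i| ≤ rr m (a j) Y ε i := fun i => abs_le.2 ⟨hx.1 i, hx.2 i⟩
    refine ⟨⟨?_, ?_⟩, ?_, ?_⟩
    · simpa [rr] using h1 0
    · have := h1 1
      have e : ((1 : Fin (m + 3)) : ℕ) = 1 := rfl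
      simpa [rr, e] using this
    · have := h1 2
      rwa [rr_two] at this
    · intro i hi
      have := h1 i
      unfold rr at this
      rwa [if_neg (by omega), if_neg (by omega)] at this
  have hBtt : ∀ j x, x ∈ B j → 4 ^ j * tt x ≤ t0 := by
    intro j x hx
    obtain ⟨⟨h0, h1⟩, -⟩ := hBmem j x hx
    have h2 : x 0 ^ 2 ≤ a j ^ 2 := by
      rw [← sq_abs (x 0)]; exact pow_le_pow_left₀ (abs_nonneg _) h0 2
    have h3 : x 1 ^ 2 ≤ a j ^ 2 := by
      rw [← sq_abs (x 1)]; exact pow_le_pow_left₀ (abs_nonneg _) h1 2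
    have h4 : (4 : ℝ) ^ j * (2 * (t0 / 2 / 4 ^ j)) = t0 := by
      field_simp
    rw [ha2] at h2 h3
    have h5 : (0 : ℝ) < 4 ^ j := by positivity
    unfold tt
    calc (4 : ℝ) ^ j * (x 0 ^ 2 + x 1 ^ 2) ≤ 4 ^ j * (2 * (t0 / 2 / 4 ^ j)) := by
          gcongr; linarith
      _ = t0 := h4
  have hBA : ∀ j, B j ⊆ A := by
    intro j x hx
    obtain ⟨-, h2, h3⟩ := hBmem j x hx
    refine ⟨?_, h2, h3⟩
    have := hBtt j x hx
    have h5 : (1 : ℝ) ≤ 4 ^ j := one_le_pow₀ (by norm_num)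
    have h6 : 0 ≤ tt x := by unfold tt; positivity
    nlinarith
  -- continuity
  have hcont : Continuous (tt : (Fin (m + 3) → ℝ) → ℝ) := by
    unfold tt; fun_prop
  have hAcl : IsClosed A := by
    refine IsClosed.inter (isClosed_le hcont continuous_const) ?_
    refine IsClosed.inter (isClosed_le
      (f := fun x : Fin (m + 3) → ℝ => |x 2|) (by fun_prop) continuous_const) ?_
    have : {x : Fin (m + 3) → ℝ | ∀ i, 3 ≤ i.val → |x i| ≤ ε} =
      ⋂ i : Fin (m + 3), ⋂ _ : 3 ≤ i.val, {x | |x i| ≤ ε} := by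
      ext x; simp
    change IsClosed {x : Fin (m + 3) → ℝ | ∀ i, 3 ≤ i.val → |x i| ≤ ε}
    rw [this]
    exact isClosed_iInter fun i => isClosed_iInter fun _ =>
      isClosed_le (by fun_prop) continuous_const
  have hAbd : A ⊆ Set.Icc (-(rr m (√t0) Y ε)) (rr m (√t0) Y ε) := by
    intro x hx
    obtain ⟨h1, h2, h3⟩ := hx
    have h4 : ∀ i, |x i| ≤ rr m (√t0) Y ε i := by
      intro i
      unfold rr
      split_ifs with h5 h6
      · apply Real.abs_le_sqrt
        have : x i ^ 2 ≤ tt x := by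
          have hi : i = 0 ∨ i = 1 := by
            rcases Nat.lt_succ_iff_lt_or_eq.1 h5 with h | h
            · left; ext; simpa using h
            · right; ext; simpa using h
          unfold tt
          rcases hi with rfl | rfl
          · nlinarith [sq_nonneg (x 1)]
          · nlinarith [sq_nonneg (x 0)]
        exact this.trans h1
      · have : i = 2 := by ext; exact h6
        rw [this]; exact h2
      · exact h3 i (by omega)
    exact ⟨fun i => (abs_le.1 (h4 i)).1, fun i => (abs_le.1 (h4 i)).2⟩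
  have hAcomp : IsCompact A := isCompact_Icc.of_isClosed_subset hAcl hAbd
  have hpos : ∀ x : Fin (m + 3) → ℝ, 0 < tt x + d := fun x => by
    unfold tt; positivity
  have hfc : Continuous fun x : Fin (m + 3) → ℝ => 1 / (tt x + d) :=
    continuous_const.div (hcont.add continuous_const) fun x => (hpos x).ne'
  have hfint : IntegrableOn (fun x : Fin (m + 3) → ℝ => 1 / (tt x + d)) A :=
    hfc.continuousOn.integrableOn_compact hAcomp
  have hBfin : ∀ j, volume (B j) < ⊤ := fun j => isCompact_Icc.measure_lt_top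
  have hgint : ∀ j, Integrable ((B j).indicator fun _ => (4 : ℝ) ^ j / (2 * t0)) volume :=
    fun j => (integrable_indicator_iff (hBmeas j)).2 (integrableOn_const (hBfin j).ne)
  have hle : ∀ x ∈ A, ∑ j ∈ Finset.range k,
      (B j).indicator (fun _ => (4 : ℝ) ^ j / (2 * t0)) x ≤ 1 / (tt x + d) := by
    intro x _
    have h1 := dyadic k t0 d (tt x) ht hd (by unfold tt; positivity) hk
    have h2 : ∑ j ∈ Finset.range k, (B j).indicator (fun _ => (4 : ℝ) ^ j / (2 * t0)) x ≤
        (∑ j ∈ Finset.range k, (if 4 ^ j * tt x ≤ t0 then (4 : ℝ) ^ j else 0)) / (2 * t0) := by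
      rw [Finset.sum_div]
      refine Finset.sum_le_sum fun j _ => ?_
      by_cases hx : x ∈ B j
      · rw [Set.indicator_of_mem hx, if_pos (hBtt j x hx)]
      · rw [Set.indicator_of_notMem hx]
        split_ifs <;> positivity
    refine h2.trans ?_
    rw [div_le_iff₀ (by positivity)]
    refine h1.trans (le_of_eq ?_)
    ring
  have h3 : ∫ x in A, ∑ j ∈ Finset.range k,
      (B j).indicator (fun _ => (4 : ℝ) ^ j / (2 * t0)) x ≤ ∫ x in A, 1 / (tt x + d) := by
    refine setIntegral_mono_on ?_ hfint hAcl.measurableSet hle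
    exact (integrable_finsetSum _ fun j _ => hgint j).integrableOn
  refine le_trans (le_of_eq ?_) h3
  rw [integral_finsetSum _ fun j _ => (hgint j).integrableOn]
  have h4 : ∀ j ∈ Finset.range k, ∫ x in A, (B j).indicator (fun _ => (4 : ℝ) ^ j / (2 * t0)) x =
      (2 * Y) * (2 * ε) ^ m := by
    intro j _
    rw [setIntegral_indicator (hBmeas j), Set.inter_eq_self_of_subset_right (hBA j),
      setIntegral_const, vol_box m (a j) Y ε (ha0 j) hY hε, ha2, smul_eq_mul]
    field_simp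
    norm_num
  rw [Finset.sum_congr rfl h4, Finset.sum_const, Finset.card_range, nsmul_eq_mul]
  ring

end Pool.Agent.Lib.MP_e1fd79_gt.H35
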