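import Pool.Agent.Lib.MP_e1fd79_gt.Interfaces

/-!
# Module LIPF: five Lipschitz functions
-/

set_option autoImplicit false

open scoped ContDiff Topology
open MeasureTheory Filter

namespace Pool.Agent.Lib.MP_e1fd79_gt.H35

variable {m : ℕ}

lemma zz_nonneg (v : Fin (m + 3) → ℝ) : 0 ≤ zz v := Finset.sum_nonneg fun _ _ => sq_nonneg _

lemma tt_nonneg (x : Fin (m + 3) → ℝ) : 0 ≤ tt x := by unfold tt; positivity

/-- The planar part of the quadratic form. -/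
noncomputable def gp (P : Prof) (x v : Fin (m + 3) → ℝ) : ℝ :=
  v 0 ^ 2 + v 1 ^ 2 + P.mu (tt x) / P.N (tt x) * (x 0 * v 0 + x 1 * v 1) ^ 2

lemma qf_eq (P : Prof) (x v : Fin (m + 3) → ℝ) :
    P.qf x v = gp P x v + P.N (tt x) * v 2 ^ 2 + zz v := rfl

/-- `N g' = N (v0² + v1²) + mu s²`. -/
lemma N_mul_gp (P : Prof) (x v : Fin (m + 3) → ℝ) :
    P.N (tt x) * gp P x v =
      P.N (tt x) * (v 0 ^ 2 + v 1 ^ 2) + P.mu (tt x) * (x 0 * v 0 + x 1 * v 1) ^ 2 := by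
  have h : P.N (tt x) ≠ 0 := (P.pos _ (tt_nonneg x)).ne'
  unfold gp
  field_simp

/-- (F1) `s² ≤ t N g'` -/
lemma s_sq_le (P : Prof) (x v : Fin (m + 3) → ℝ) :
    (x 0 * v 0 + x 1 * v 1) ^ 2 ≤ tt x * (P.N (tt x) * gp P x v) := by
  rw [N_mul_gp]
  have hN : 0 < P.N (tt x) := P.pos _ (tt_nonneg x)
  have h1 : P.N (tt x) = 1 - tt x * P.mu (tt x) := rfl
  have h2 : tt x * (v 0 ^ 2 + v 1 ^ 2) =
      (x 0 * v 0 + x 1 * v 1) ^ 2 + (x 0 * v 1 - x 1 * v 0) ^ 2 := by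
    unfold tt; ring
  have h3 : tt x * (P.N (tt x) * (v 0 ^ 2 + v 1 ^ 2) +
      P.mu (tt x) * (x 0 * v 0 + x 1 * v 1) ^ 2) =
      (x 0 * v 0 + x 1 * v 1) ^ 2 + P.N (tt x) * (x 0 * v 1 - x 1 * v 0) ^ 2 := by
    have : tt x * (P.N (tt x) * (v 0 ^ 2 + v 1 ^ 2) +
      P.mu (tt x) * (x 0 * v 0 + x 1 * v 1) ^ 2) =
      P.N (tt x) * (tt x * (v 0 ^ 2 + v 1 ^ 2)) +
        tt x * P.mu (tt x) * (x 0 * v 0 + x 1 * v 1) ^ 2 := by ring
    rw [this, h2]
    have h4 : tt x * P.mu (tt x) = 1 - P.N (tt x) := by rw [h1]; ring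
    rw [h4]; ring
  rw [h3]
  nlinarith [mul_nonneg hN.le (sq_nonneg (x 0 * v 1 - x 1 * v 0))]

/-- (F3) `v0² + v1² ≤ c g'` for `1 ≤ c`, `N ≤ c`. -/
lemma norm_le (P : Prof) (x v : Fin (m + 3) → ℝ) {c : ℝ} (h1c : 1 ≤ c)
    (hNc : P.N (tt x) ≤ c) : v 0 ^ 2 + v 1 ^ 2 ≤ c * gp P x v := by
  have hN : 0 < P.N (tt x) := P.pos _ (tt_nonneg x)
  have h1 : P.N (tt x) = 1 - tt x * P.mu (tt x) := rfl
  have hA : 0 ≤ v 0 ^ 2 + v 1 ^ 2 := by positivity
  rcases le_or_gt 0 (P.mu (tt x)) with hmu | hmu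
  · have : v 0 ^ 2 + v 1 ^ 2 ≤ gp P x v := by
      unfold gp
      have : 0 ≤ P.mu (tt x) / P.N (tt x) * (x 0 * v 0 + x 1 * v 1) ^ 2 := by positivity
      linarith
    have h0 : 0 ≤ gp P x v := hA.trans this
    nlinarith
  · have hs : (x 0 * v 0 + x 1 * v 1) ^ 2 ≤ tt x * (v 0 ^ 2 + v 1 ^ 2) := by
      unfold tt
      nlinarith [sq_nonneg (x 0 * v 1 - x 1 * v 0)]
    have h2 : v 0 ^ 2 + v 1 ^ 2 ≤ P.N (tt x) * gp P x v := by
      rw [N_mul_gp]
      have : P.mu (tt x) * (tt x * (v 0 ^ 2 + v 1 ^ 2)) ≤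
          P.mu (tt x) * (x 0 * v 0 + x 1 * v 1) ^ 2 :=
        mul_le_mul_of_nonpos_left hs hmu.le
      calc v 0 ^ 2 + v 1 ^ 2 = P.N (tt x) * (v 0 ^ 2 + v 1 ^ 2) +
            P.mu (tt x) * (tt x * (v 0 ^ 2 + v 1 ^ 2)) := by rw [h1]; ring
        _ ≤ _ := by linarith
    have h0 : 0 ≤ gp P x v := by
      by_contra hneg
      push Not at hneg
      have : P.N (tt x) * gp P x v < 0 := mul_neg_of_pos_of_neg hN hneg
      linarith
    exact h2.trans (mul_le_mul_of_nonneg_right hNc h0)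

lemma gp_nonneg (P : Prof) (x v : Fin (m + 3) → ℝ) : 0 ≤ gp P x v := by
  have h := norm_le P x v (c := max 1 (P.N (tt x))) (le_max_left _ _) (le_max_right _ _)
  have h1 : 0 < max 1 (P.N (tt x)) := lt_max_of_lt_left one_pos
  by_contra hneg
  push Not at hneg
  have h2 : max 1 (P.N (tt x)) * gp P x v < 0 := mul_neg_of_pos_of_neg h1 hneg
  have h3 : 0 ≤ v 0 ^ 2 + v 1 ^ 2 := by positivity
  linarith

lemma gp_le_qf (P : Prof) (x v : Fin (m + 3) → ℝ) : gp P x v ≤ P.qf x v := by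
  have hN : 0 < P.N (tt x) := P.pos _ (tt_nonneg x)
  rw [qf_eq]
  have := zz_nonneg v
  have : 0 ≤ P.N (tt x) * v 2 ^ 2 := by positivity
  linarith

lemma inner_eq (hQ : QFStatement) (P : Prof) (M : RMetric (m + 3)) (hM : M.g = P.gM)
    (x v : Fin (m + 3) → ℝ) : M.inner x v v = P.qf x v := by
  unfold RMetric.inner
  rw [hM, hQ]

lemma hasFDerivAt_tt (x : Fin (m + 3) → ℝ) :
    HasFDerivAt (tt : (Fin (m + 3) → ℝ) → ℝ)
      ((2 * x 0) • ContinuousLinearMap.proj (R := ℝ) (φ := fun _ : Fin (m + 3) => ℝ) 0 +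
        (2 * x 1) • ContinuousLinearMap.proj (R := ℝ) (φ := fun _ : Fin (m + 3) => ℝ) 1) x := by
  have h0 : HasFDerivAt (fun y : Fin (m + 3) → ℝ => y 0)
      (ContinuousLinearMap.proj (R := ℝ) (φ := fun _ : Fin (m + 3) => ℝ) 0) x :=
    hasFDerivAt_apply 0 x
  have h1 : HasFDerivAt (fun y : Fin (m + 3) → ℝ => y 1)
      (ContinuousLinearMap.proj (R := ℝ) (φ := fun _ : Fin (m + 3) => ℝ) 1) x :=
    hasFDerivAt_apply 1 x
  have h := (h0.pow 2).add (h1.pow 2)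
  exact h.congr_fderiv (by ext v; simp)

lemma fderiv_tt (x v : Fin (m + 3) → ℝ) :
    fderiv ℝ (tt : (Fin (m + 3) → ℝ) → ℝ) x v = 2 * (x 0 * v 0 + x 1 * v 1) := by
  rw [(hasFDerivAt_tt x).fderiv]
  simp
  ring

lemma contDiff_tt : ContDiff ℝ 1 (tt : (Fin (m + 3) → ℝ) → ℝ) := by
  unfold tt
  fun_prop

/-- The function `log (q + t)`. -/
lemma lip_log (h : LipStatement) (hQ : QFStatement) (P : Prof) (M : RMetric (m + 3))
    (hM : M.g = P.gM) (q K : ℝ) (hq : 0 < q) (hK : 1 ≤ K)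
    (h2 : ∀ t, 0 ≤ t → t * P.N t ≤ K * (q + t) ^ 2) (x y : Fin (m + 3) → ℝ) :
    |Real.log (q + tt x) - Real.log (q + tt y)| ≤ 2 * √K * M.dist x y := by
  rw [abs_sub_comm]
  have hpos : ∀ z : Fin (m + 3) → ℝ, 0 < q + tt z := fun z => by
    have := tt_nonneg z; linarith
  refine h (m + 3) M (fun z => Real.log (q + tt z)) (2 * √K) (by positivity) ?_ ?_ x y
  · exact ContDiff.log (contDiff_const.add contDiff_tt) fun z => (hpos z).ne'
  · intro z v
    have hd : HasFDerivAt (fun z : Fin (m + 3) → ℝ => Real.log (q + tt z))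
        ((q + tt z)⁻¹ • fderiv ℝ (tt : (Fin (m + 3) → ℝ) → ℝ) z) z := by
      have h3 : HasFDerivAt (fun z : Fin (m + 3) → ℝ => q + tt z)
          (fderiv ℝ (tt : (Fin (m + 3) → ℝ) → ℝ) z) z :=
        ((hasFDerivAt_tt z).differentiableAt.hasFDerivAt).const_add q
      exact h3.log (hpos z).ne'
    rw [hd.fderiv, inner_eq hQ P M hM]
    simp only [FunLike.coe_smul, Pi.smul_apply, fderiv_tt, smul_eq_mul]
    have hs := s_sq_le P z v
    have hg := gp_nonneg P z v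
    have hgq := gp_le_qf P z v
    have hK0 : (2 * √K) ^ 2 = 4 * K := by
      rw [mul_pow, Real.sq_sqrt (by linarith)]; ring
    rw [hK0]
    have hpz := hpos z
    have e : ((q + tt z)⁻¹ * (2 * (z 0 * v 0 + z 1 * v 1))) ^ 2 =
        4 * (z 0 * v 0 + z 1 * v 1) ^ 2 / (q + tt z) ^ 2 := by
      field_simp
      ring
    rw [e, div_le_iff₀ (by positivity)]
    have h5 := h2 (tt z) (tt_nonneg z)
    calc 4 * (z 0 * v 0 + z 1 * v 1) ^ 2 ≤ 4 * (tt z * (P.N (tt z) * gp P z v)) := by linarith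
      _ = 4 * ((tt z * P.N (tt z)) * gp P z v) := by ring
      _ ≤ 4 * ((K * (q + tt z) ^ 2) * gp P z v) := by gcongr
      _ ≤ 4 * ((K * (q + tt z) ^ 2) * P.qf z v) := by gcongr
      _ = _ := by ring

/-- The functions `x_i / √(1 + t)`, `i = 0, 1`. -/
lemma lip_xi (h : LipStatement) (hQ : QFStatement) (P : Prof) (M : RMetric (m + 3))
    (hM : M.g = P.gM) (K : ℝ) (hK : 1 ≤ K)
    (h3 : ∀ t, 0 ≤ t → P.N t ≤ K * (1 + t)) (i : Fin (m + 3))
    (hi1 : ∀ z : Fin (m + 3) → ℝ, z i ^ 2 ≤ z 0 ^ 2 + z 1 ^ 2)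
    (x y : Fin (m + 3) → ℝ) :
    |x i / √(1 + tt x) - y i / √(1 + tt y)| ≤ 2 * √K * M.dist x y := by
  rw [abs_sub_comm]
  have hpos : ∀ z : Fin (m + 3) → ℝ, 0 < 1 + tt z := fun z => by
    have := tt_nonneg z; linarith
  have hne : ∀ z : Fin (m + 3) → ℝ, √(1 + tt z) ≠ 0 := fun z =>
    (Real.sqrt_pos.2 (hpos z)).ne'
  refine h (m + 3) M (fun z => z i / √(1 + tt z)) (2 * √K) (by positivity) ?_ ?_ x y
  · refine ContDiff.div (contDiff_apply ℝ ℝ i)
      (ContDiff.sqrt (contDiff_const.add contDiff_tt) fun z => (hpos z).ne') hne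
  · intro z v
    have h0 : HasFDerivAt (fun y : Fin (m + 3) → ℝ => y i)
        (ContinuousLinearMap.proj (R := ℝ) (φ := fun _ : Fin (m + 3) => ℝ) i) z :=
      hasFDerivAt_apply i z
    have h4 : HasFDerivAt (fun z : Fin (m + 3) → ℝ => 1 + tt z)
        (fderiv ℝ (tt : (Fin (m + 3) → ℝ) → ℝ) z) z :=
      ((hasFDerivAt_tt z).differentiableAt.hasFDerivAt).const_add 1
    have h5 : HasFDerivAt (fun z : Fin (m + 3) → ℝ => √(1 + tt z))
        ((1 / (2 * √(1 + tt z))) • fderiv ℝ (tt : (Fin (m + 3) → ℝ) → ℝ) z) z :=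
      h4.sqrt (hpos z).ne'
    have h6 : HasFDerivAt (fun z : Fin (m + 3) → ℝ => (√(1 + tt z))⁻¹)
        ((-(√(1 + tt z) ^ 2)⁻¹) • ((1 / (2 * √(1 + tt z))) •
          fderiv ℝ (tt : (Fin (m + 3) → ℝ) → ℝ) z)) z :=
      (hasDerivAt_inv (hne z)).comp_hasFDerivAt z h5
    have hd := h0.mul h6
    have hd' : fderiv ℝ (fun z : Fin (m + 3) → ℝ => z i / √(1 + tt z)) z v =
        (√(1 + tt z) * v i - z i * ((1 / (2 * √(1 + tt z))) *
          (2 * (z 0 * v 0 + z 1 * v 1)))) / √(1 + tt z) ^ 2 := by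
      have := hd.fderiv
      have e : (fun z : Fin (m + 3) → ℝ => z i / √(1 + tt z)) =
        ((fun y : Fin (m + 3) → ℝ => y i) * fun z : Fin (m + 3) → ℝ => (√(1 + tt z))⁻¹) := by
        ext z
        simp [div_eq_mul_inv]
      rw [e, this]
      have hR := hne z
      simp only [FunLike.coe_add, FunLike.coe_smul, Pi.add_apply, Pi.smul_apply, smul_eq_mul,
        fderiv_tt, ContinuousLinearMap.proj_apply]
      field_simp
      ring
    rw [hd', inner_eq hQ P M hM]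
    have hs := s_sq_le P z v
    have hg := gp_nonneg P z v
    have hgq := gp_le_qf P z v
    have hK0 : (2 * √K) ^ 2 = 4 * K := by
      rw [mul_pow, Real.sq_sqrt (by linarith)]; ring
    rw [hK0]
    have hpz := hpos z
    have hR : √(1 + tt z) ^ 2 = 1 + tt z := Real.sq_sqrt hpz.le
    have hRne := hne z
    have e : ((√(1 + tt z) * v i - z i * ((1 / (2 * √(1 + tt z))) *
          (2 * (z 0 * v 0 + z 1 * v 1)))) / √(1 + tt z) ^ 2) ^ 2 =
        ((1 + tt z) * v i - z i * (z 0 * v 0 + z 1 * v 1)) ^ 2 / (1 + tt z) ^ 3 := by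
      have key : ∀ R T a b s : ℝ, R ≠ 0 → R ^ 2 = T →
          ((R * a - b * ((1 / (2 * R)) * (2 * s))) / R ^ 2) ^ 2 =
            (T * a - b * s) ^ 2 / T ^ 3 := by
        intro R T a b s hR hT
        subst hT
        field_simp
      exact key _ _ _ _ _ hRne hR
    rw [e, div_le_iff₀ (by positivity)]
    have ht := tt_nonneg z
    have hvi : v i ^ 2 ≤ K * (1 + tt z) * gp P z v :=
      (hi1 v).trans (norm_le P z v (by nlinarith) (h3 _ ht))
    have hzi : z i ^ 2 ≤ 1 + tt z := by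
      have := hi1 z
      unfold tt
      linarith
    have hs2 : (z 0 * v 0 + z 1 * v 1) ^ 2 ≤ (1 + tt z) * (K * (1 + tt z) * gp P z v) := by
      refine hs.trans ?_
      have := h3 _ ht
      have hN : 0 < P.N (tt z) := P.pos _ ht
      gcongr
      linarith
    have hK' : 0 ≤ K := by linarith
    have e1 : ((1 + tt z) * v i - z i * (z 0 * v 0 + z 1 * v 1)) ^ 2 ≤
        2 * ((1 + tt z) ^ 2 * v i ^ 2) + 2 * (z i ^ 2 * (z 0 * v 0 + z 1 * v 1) ^ 2) := by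
      nlinarith [sq_nonneg ((1 + tt z) * v i + z i * (z 0 * v 0 + z 1 * v 1))]
    calc ((1 + tt z) * v i - z i * (z 0 * v 0 + z 1 * v 1)) ^ 2
        ≤ 2 * ((1 + tt z) ^ 2 * v i ^ 2) + 2 * (z i ^ 2 * (z 0 * v 0 + z 1 * v 1) ^ 2) := e1
      _ ≤ 2 * ((1 + tt z) ^ 2 * (K * (1 + tt z) * gp P z v)) +
          2 * ((1 + tt z) * ((1 + tt z) * (K * (1 + tt z) * gp P z v))) := by gcongr
      _ = 4 * K * (1 + tt z) ^ 3 * gp P z v := by ring
      _ ≤ 4 * K * (1 + tt z) ^ 3 * P.qf z v := by gcongr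
      _ = _ := by ring

/-- Coordinates. -/
lemma lip_coord (h : LipStatement) (hQ : QFStatement) (P : Prof) (M : RMetric (m + 3))
    (hM : M.g = P.gM) (L : ℝ) (hL : 0 ≤ L) (i : Fin (m + 3))
    (hi : ∀ z v : Fin (m + 3) → ℝ, v i ^ 2 ≤ L ^ 2 * P.qf z v)
    (x y : Fin (m + 3) → ℝ) : |x i - y i| ≤ L * M.dist x y := by
  rw [abs_sub_comm]
  refine h (m + 3) M (fun z => z i) L hL (contDiff_apply ℝ ℝ i) ?_ x y
  intro z v
  have h0 : HasFDerivAt (fun y : Fin (m + 3) → ℝ => y i)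
      (ContinuousLinearMap.proj (R := ℝ) (φ := fun _ : Fin (m + 3) => ℝ) i) z :=
    hasFDerivAt_apply i z
  rw [h0.fderiv, inner_eq hQ P M hM]
  exact hi z v

/-- Module LIPF. -/
theorem lipf_holds (h : LipStatement) (hQ : QFStatement) : LipFStatement := by
  intro P m M hM q K hq _ hK h1 h2 h3 x y
  refine ⟨lip_log h hQ P M hM q K hq hK h2 x y,
    lip_xi h hQ P M hM K hK h3 0 (fun z => by nlinarith [sq_nonneg (z 1)]) x y,
    lip_xi h hQ P M hM K hK h3 1 (fun z => by nlinarith [sq_nonneg (z 0)]) x y, ?_, ?_⟩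
  · refine lip_coord h hQ P M hM (1 / √q) (by positivity) 2 ?_ x y
    intro z v
    have hq2 : (1 / √q) ^ 2 = 1 / q := by
      rw [div_pow, Real.sq_sqrt hq.le, one_pow]
    rw [hq2, qf_eq, one_div, ← div_eq_inv_mul, le_div_iff₀ hq]
    have := gp_nonneg P z v
    have := zz_nonneg v
    have h4 := h1 _ (tt_nonneg z)
    nlinarith [mul_le_mul_of_nonneg_right h4 (sq_nonneg (v 2))]
  · intro i hi
    have := lip_coord h hQ P M hM 1 zero_le_one i ?_ x y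
    · simpa using this
    intro z v
    have := gp_nonneg P z v
    have hN : 0 < P.N (tt z) := P.pos _ (tt_nonneg z)
    have h5 : 0 ≤ P.N (tt z) * v 2 ^ 2 := by positivity
    have h6 : v i ^ 2 ≤ zz v := by
      obtain ⟨j, hj⟩ : ∃ j : Fin m, i = j.succ.succ.succ :=
        ⟨⟨i.val - 3, by omega⟩, by ext; simp; omega⟩
      rw [hj]
      unfold zz
      exact Finset.single_le_sum (f := fun i : Fin m => v i.succ.succ.succ ^ 2)
        (fun _ _ => sq_nonneg _) (Finset.mem_univ j)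
    rw [qf_eq]
    linarith

end Pool.Agent.Lib.MP_e1fd79_gt.H35
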